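import Pool.Agent.Helper67.BT.Stmts

open Finset MeasureTheory Module

namespace Pool.Agent.Helper67.BT

open Pool.Agent.Helper86.LP

theorem fin_basis {n k : ℕ} (H : Submodule ℝ (EuclideanSpace ℝ (Fin n)))
    (hk : finrank ℝ H = k) :
    ∃ (L : E k ≃ₗᵢ[ℝ] H) (a : Fin n → E k),
      (∀ i y, ((L y : H) : EuclideanSpace ℝ (Fin n)) i = inner ℝ (a i) y) ∧ Sp a := by
  set b : OrthonormalBasis (Fin k) ℝ H := (stdOrthonormalBasis ℝ H).reindex (finCongr hk) with hb
  refine ⟨b.repr.symm, fun i => WithLp.toLp 2 fun l => (b l : EuclideanSpace ℝ (Fin n)) i, ?_⟩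
  have h1 : ∀ (i : Fin n) (y : E k),
      ((b.repr.symm y : H) : EuclideanSpace ℝ (Fin n)) i =
        inner ℝ (WithLp.toLp 2 fun l => (b l : EuclideanSpace ℝ (Fin n)) i : E k) y := by
    intro i y
    rw [← OrthonormalBasis.sum_repr_symm]
    rw [PiLp.inner_apply]
    simp
  refine ⟨h1, fun y hy => ?_⟩
  have h2 : b.repr.symm y = 0 := by
    apply Subtype.ext
    ext i
    rw [h1 i y, hy i]
    simp
  simpa using h2

theorem fin_Phi {n k : ℕ} {H : Submodule ℝ (EuclideanSpace ℝ (Fin n))} (L : E k ≃ₗᵢ[ℝ] H)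
    (a : Fin n → E k)
    (hL : ∀ i y, ((L y : H) : EuclideanSpace ℝ (Fin n)) i = inner ℝ (a i) y) (p : ℝ)
    (τ v : Fin n → ℝ) (t : ℝ) :
    (Phi p H (fun i => τ i + t * v i)).toReal = ∫ y, wt a p τ v t y := by
  have hm : Measurable (fun x : H => ENNReal.ofReal (Real.exp
      (-∑ i, Real.exp (τ i + t * v i) * |(x : EuclideanSpace ℝ (Fin n)) i| ^ p))) :=
    (Finset.measurable_sum _ fun i _ =>
      (measurable_coord H i p).const_mul _).neg.exp.ennreal_ofReal
  have hm2 : Measurable (fun y : E k => wt a p τ v t y) := by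
    have : (fun y : E k => wt a p τ v t y) = fun y => Real.exp
      (-∑ i, Real.exp (τ i + t * v i) * |((L y : H) : EuclideanSpace ℝ (Fin n)) i| ^ p) := by
      funext y
      unfold wt
      simp only [hL]
    rw [this]
    have h3 : Measurable (fun x : H => Real.exp
      (-∑ i, Real.exp (τ i + t * v i) * |(x : EuclideanSpace ℝ (Fin n)) i| ^ p)) :=
      (Finset.measurable_sum _ fun i _ => (measurable_coord H i p).const_mul _).neg.exp
    exact h3.comp L.continuous.measurable
  have h0 : 0 ≤ᵐ[volume] (fun y : E k => wt a p τ v t y) :=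
    Filter.Eventually.of_forall fun y => by
      unfold wt
      exact (Real.exp_pos _).le
  rw [integral_eq_lintegral_of_nonneg_ae h0 hm2.aestronglyMeasurable]
  congr 1
  unfold Phi
  simp only [exp_sum_eq]
  rw [← L.measurePreserving.lintegral_comp hm]
  apply lintegral_congr
  intro y
  unfold wt
  simp only [hL]

theorem st_FIN (hSEC : ST_SEC) : ST_FIN := by
  intro k
  obtain ⟨ε, hε, hε1, hS⟩ := hSEC k
  refine ⟨ε, hε, fun p hp hpe n H hk => ?_⟩
  obtain ⟨L, a, hL, hsp⟩ := fin_basis H hk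
  have hq : 1 ≤ p := by linarith
  have hpos : ∀ τ, 0 < (Phi p H τ).toReal := fun τ =>
    ENNReal.toReal_pos (Phi_ne_zero H τ) (Phi_ne_top H hq τ)
  rw [isLogConcave_iff hq]
  intro l m hl hm hlm x y
  have h1 := (hS n a p y (fun i => x i - y i) hp hpe hsp).2 (Set.mem_univ (1 : ℝ))
    (Set.mem_univ (0 : ℝ)) hl.le hm.le hlm
  simp only [← fin_Phi L a hL, smul_eq_mul, mul_one, mul_zero, add_zero, one_mul,
    zero_mul] at h1
  have e1 : (fun i => y i + (x i - y i)) = x := by funext i; ring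
  have e2 : (fun i => y i + l * (x i - y i)) = l • x + m • y := by
    funext i
    have hm' : m = 1 - l := by linarith
    simp only [Pi.add_apply, Pi.smul_apply, smul_eq_mul, hm']
    ring
  have e3 : (fun i => y i) = y := rfl
  rw [e1, e2] at h1
  rw [← ENNReal.toReal_le_toReal (ENNReal.mul_ne_top
      (ENNReal.rpow_ne_top_of_nonneg hl.le (Phi_ne_top H hq x))
      (ENNReal.rpow_ne_top_of_nonneg hm.le (Phi_ne_top H hq y))) (Phi_ne_top H hq _),
      ENNReal.toReal_mul, ← ENNReal.toReal_rpow, ← ENNReal.toReal_rpow,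
      ← Real.log_le_log_iff (mul_pos (Real.rpow_pos_of_pos (hpos _) _)
        (Real.rpow_pos_of_pos (hpos _) _)) (hpos _),
      Real.log_mul (Real.rpow_pos_of_pos (hpos _) _).ne' (Real.rpow_pos_of_pos (hpos _) _).ne',
      Real.log_rpow (hpos _), Real.log_rpow (hpos _)]
  exact h1

end Pool.Agent.Helper67.BT
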